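import Pool.Agent.W710.DP.Stm1

/-!
# One step brings far configurations down
-/

set_option autoImplicit false

namespace Pool.Agent.W616.DP

open Pool.Agent.W710.DP

lemma Sw_sum (b : ℝ) (w : List Letter) : ∀ ζ : Cfg, Sw b w ζ =
    ∑ j ∈ Finset.range w.length, ((ζ.2 j - b) * (ζ.1 (j + 1) - ζ.1 j) -
      (lt w j).G (ζ.1 j) (ζ.2 j)) := by
  induction w with
  | nil => intro ζ; simp [Sw]
  | cons l w ih =>
    intro ζ
    rw [List.length_cons, Finset.sum_range_succ']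
    simp only [Sw]
    rw [ih (shc 1 ζ)]
    rw [add_comm]
    congr 1

lemma lt_mem (w : List Letter) (j : ℕ) (h : j < w.length) : lt w j ∈ w := by
  unfold lt
  rw [List.getD_eq_getElem _ _ h]
  exact List.getElem_mem h

theorem t_drop (h : S_glip) : S_drop := by
  intro b T e w hp hw τ hτ M
  obtain ⟨-, B, hB0, hB⟩ := h b T e w hp hw
  obtain ⟨hτ0, hOm, hx, -, -, -⟩ := hτ
  obtain ⟨he, heb, heT⟩ := hp
  have hb : 0 < b := by linarith
  have hTb : 0 < T - b := by linarith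
  have hT : 0 < T := by linarith
  obtain ⟨Y0, hY0⟩ : ∃ Y0 : ℝ, Y0 = T / τ + B + 1 := ⟨_, rfl⟩
  have hY0p : 1 ≤ Y0 := by
    have : 0 < T / τ := div_pos hT hτ0
    linarith
  obtain ⟨c, hc⟩ : ∃ c : ℝ, c = T * (Y0 + 1 / 2) + 1 / 4 := ⟨_, rfl⟩
  have hc0 : 0 < c := by
    rw [hc]
    positivity
  obtain ⟨μ, hμ⟩ : ∃ μ : ℝ, μ = min b (T - b) := ⟨_, rfl⟩
  have hμ0 : 0 < μ := by rw [hμ]; exact lt_min hb hTb
  have hμb : μ ≤ b := by rw [hμ]; exact min_le_left _ _
  have hμT : μ ≤ T - b := by rw [hμ]; exact min_le_right _ _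
  obtain ⟨Y, hY⟩ : ∃ Y : ℝ, Y = Y0 + 1 / 2 + |M + w.length * c + 1 / 4| / μ := ⟨_, rfl⟩
  have hq : 0 ≤ |M + w.length * c + 1 / 4| / μ := div_nonneg (abs_nonneg _) hμ0.le
  have hYY0 : Y0 ≤ Y := by rw [hY]; linarith
  refine ⟨Y, by linarith, ?_⟩
  intro ζ hζ ⟨i, hi, hiY⟩
  obtain ⟨D, hD⟩ : ∃ D : Cfg, D = Dst τ b T w ζ := ⟨_, rfl⟩
  rw [← hD]
  have hOmD : Om T w.length D := by rw [hD]; exact hOm ζ
  have hxD : ∀ j ≤ w.length, |D.1 j - ζ.1 j| ≤ 1 / 4 := by rw [hD]; exact hx ζ hζ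
  obtain ⟨-, hBS⟩ := hB ζ hζ
  have hD2 : ∀ j, D.2 j = max 0 (min T (ζ.2 j - τ * gradS w ζ j)) := by
    intro j
    rw [hD]
    rfl
  -- the terms
  have hG : ∀ j < w.length, |(lt w j).G (D.1 j) (D.2 j)| ≤ 1 / 4 := by
    intro j hj
    exact ((hw _ (lt_mem w j hj)).small _ _).1
  have hfar : ∀ j < w.length, Y0 ≤ |ζ.1 (j + 1) - ζ.1 j| →
      (D.2 j - b) * (D.1 (j + 1) - D.1 j) - (lt w j).G (D.1 j) (D.2 j) ≤
        -(μ * (|ζ.1 (j + 1) - ζ.1 j| - 1 / 2)) + 1 / 4 := by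
    intro j hj hY
    have h1 := abs_le.mp (hxD j hj.le)
    have h2 := abs_le.mp (hxD (j + 1) hj)
    have h3 := abs_le.mp (hBS j hj)
    have h4 := abs_le.mp (hG j hj)
    have h5 := hζ j hj
    have h6 : τ * (T / τ) = T := by field_simp
    rcases le_total 0 (ζ.1 (j + 1) - ζ.1 j) with h0 | h0
    · rw [abs_of_nonneg h0] at hY ⊢
      have h7 : T / τ ≤ gradS w ζ j := by linarith
      have h8 : τ * (T / τ) ≤ τ * gradS w ζ j := mul_le_mul_of_nonneg_left h7 hτ0.le
      have h9 : D.2 j = 0 := by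
        rw [hD2 j]
        apply max_eq_left
        apply (min_le_right _ _).trans
        linarith
      rw [h9]
      have h10 : μ * (ζ.1 (j + 1) - ζ.1 j - 1 / 2) ≤ b * (D.1 (j + 1) - D.1 j) := by
        apply mul_le_mul hμb (by linarith) (by linarith) hb.le
      rw [h9] at h4
      linarith
    · rw [abs_of_nonpos h0] at hY ⊢
      have h7 : gradS w ζ j ≤ -(T / τ) := by linarith
      have h8 : τ * gradS w ζ j ≤ τ * (-(T / τ)) := mul_le_mul_of_nonneg_left h7 hτ0.le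
      have h9 : D.2 j = T := by
        rw [hD2 j, min_eq_left (by linarith), max_eq_right hT.le]
      rw [h9]
      have h10 : μ * (-(ζ.1 (j + 1) - ζ.1 j) - 1 / 2) ≤ (T - b) * (-(D.1 (j + 1) - D.1 j)) := by
        apply mul_le_mul hμT (by linarith) (by linarith) hTb.le
      rw [h9] at h4
      linarith
  have hall : ∀ j < w.length,
      (D.2 j - b) * (D.1 (j + 1) - D.1 j) - (lt w j).G (D.1 j) (D.2 j) ≤ c := by
    intro j hj
    rcases le_total Y0 |ζ.1 (j + 1) - ζ.1 j| with h0 | h0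
    · have h1 := hfar j hj h0
      have h2 : 0 ≤ μ * (|ζ.1 (j + 1) - ζ.1 j| - 1 / 2) :=
        mul_nonneg hμ0.le (by linarith)
      have h3 : 0 ≤ T * (Y0 + 1 / 2) := by positivity
      linarith
    · have h1 := abs_le.mp (hxD j hj.le)
      have h2 := abs_le.mp (hxD (j + 1) hj)
      have h4 := abs_le.mp (hG j hj)
      have h5 := abs_le.mp h0
      have h6 : |D.1 (j + 1) - D.1 j| ≤ Y0 + 1 / 2 := by
        rw [abs_le]
        constructor <;> linarith
      have h7 : |D.2 j - b| ≤ T := by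
        rw [abs_le]
        have := hOmD j hj
        constructor <;> linarith
      have h8 : (D.2 j - b) * (D.1 (j + 1) - D.1 j) ≤ T * (Y0 + 1 / 2) := by
        calc (D.2 j - b) * (D.1 (j + 1) - D.1 j) ≤ |(D.2 j - b) * (D.1 (j + 1) - D.1 j)| :=
              le_abs_self _
          _ = |D.2 j - b| * |D.1 (j + 1) - D.1 j| := abs_mul _ _
          _ ≤ T * (Y0 + 1 / 2) := mul_le_mul h7 h6 (abs_nonneg _) hT.le
      linarith
  rw [Sw_sum, ← Finset.add_sum_erase _ _ (Finset.mem_range.mpr hi)]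
  have hrest : ∑ j ∈ (Finset.range w.length).erase i,
      ((D.2 j - b) * (D.1 (j + 1) - D.1 j) - (lt w j).G (D.1 j) (D.2 j)) ≤ w.length * c := by
    calc _ ≤ ∑ j ∈ (Finset.range w.length).erase i, c := by
          apply Finset.sum_le_sum
          intro j hj
          exact hall j (Finset.mem_range.mp (Finset.mem_of_mem_erase hj))
      _ ≤ ∑ j ∈ Finset.range w.length, c :=
          Finset.sum_le_sum_of_subset_of_nonneg (Finset.erase_subset _ _)
            (fun _ _ _ => hc0.le)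
      _ = w.length * c := by rw [Finset.sum_const, Finset.card_range, nsmul_eq_mul]
  have h1 := hfar i hi (hYY0.trans hiY)
  have h2 : μ * (Y0 + |M + w.length * c + 1 / 4| / μ) ≤ μ * (|ζ.1 (i + 1) - ζ.1 i| - 1 / 2) := by
    apply mul_le_mul_of_nonneg_left _ hμ0.le
    linarith
  have h3 : μ * (Y0 + |M + w.length * c + 1 / 4| / μ) = μ * Y0 + |M + w.length * c + 1 / 4| := by
    field_simp
  have h4 : M + w.length * c + 1 / 4 ≤ |M + w.length * c + 1 / 4| := le_abs_self _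
  have h5 : 0 ≤ μ * Y0 := by positivity
  linarith

end Pool.Agent.W616.DP
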